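import Pool.Agent.Helper54.LM.Defs
import Pool.Agent.Helper81.LS.FB

set_option autoImplicit false

open Filter Topology

namespace Pool.Agent.Helper54.LM

open Pool.Agent.Helper42.LS

/-- the double sum of cosines -/
theorem LBC_cos {ι : Type} (S : Finset ι) (β x : ι → ℝ) (r : ℝ) :
    ∑ a ∈ S, ∑ b ∈ S, β a * β b * Real.cos (r * (x a - x b)) =
      (∑ a ∈ S, β a * Real.cos (r * x a)) ^ 2 + (∑ a ∈ S, β a * Real.sin (r * x a)) ^ 2 := by
  rw [sq, sq, Finset.sum_mul_sum, Finset.sum_mul_sum, ← Finset.sum_add_distrib]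
  refine Finset.sum_congr rfl fun a _ => ?_
  rw [← Finset.sum_add_distrib]
  refine Finset.sum_congr rfl fun b _ => ?_
  rw [mul_sub r, Real.cos_sub]
  ring

/-- Fourier expansion of a double sum -/
theorem LBC_sum {ι : Type} (S : Finset ι) (B : ι → ι → ℝ) (x : ι → ℝ) :
    HasSum (fun n : ℕ => (∑ a ∈ S, ∑ b ∈ S, B a b *
      Real.cos (2 * Real.pi * (n + 1) * (x a - x b))) / ((n : ℝ) + 1) ^ 2)
      (Real.pi ^ 2 * ∑ a ∈ S, ∑ b ∈ S, B a b * B2 (x a - x b)) := by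
  have h2 : HasSum (fun n : ℕ => ∑ a ∈ S, ∑ b ∈ S, B a b *
      (Real.cos (2 * Real.pi * (n + 1) * (x a - x b)) / ((n : ℝ) + 1) ^ 2))
      (∑ a ∈ S, ∑ b ∈ S, B a b * (Real.pi ^ 2 * B2 (x a - x b))) :=
    hasSum_sum fun a _ => hasSum_sum fun b _ => (st_FB (x a - x b)).mul_left (B a b)
  have e1 : (fun n : ℕ => (∑ a ∈ S, ∑ b ∈ S, B a b *
      Real.cos (2 * Real.pi * (n + 1) * (x a - x b))) / ((n : ℝ) + 1) ^ 2) =
      fun n : ℕ => ∑ a ∈ S, ∑ b ∈ S, B a b *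
      (Real.cos (2 * Real.pi * (n + 1) * (x a - x b)) / ((n : ℝ) + 1) ^ 2) := by
    funext n
    rw [Finset.sum_div]
    refine Finset.sum_congr rfl fun a _ => ?_
    rw [Finset.sum_div]
    refine Finset.sum_congr rfl fun b _ => ?_
    ring
  have e2 : Real.pi ^ 2 * ∑ a ∈ S, ∑ b ∈ S, B a b * B2 (x a - x b) =
      ∑ a ∈ S, ∑ b ∈ S, B a b * (Real.pi ^ 2 * B2 (x a - x b)) := by
    rw [Finset.mul_sum]
    refine Finset.sum_congr rfl fun a _ => ?_
    rw [Finset.mul_sum]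
    refine Finset.sum_congr rfl fun b _ => ?_
    ring
  rw [e1, e2]
  exact h2

/-- weighted positivity -/
theorem LBC_pos {ι : Type} (S : Finset ι) (β x : ι → ℝ) :
    0 ≤ ∑ a ∈ S, ∑ b ∈ S, β a * β b * B2 (x a - x b) := by
  have h := (LBC_sum S (fun a b => β a * β b) x).nonneg (fun n => by
    rw [LBC_cos]
    positivity)
  exact nonneg_of_mul_nonneg_right h (by positivity)

theorem LBC_den {ι : Type} (S : Finset ι) (x : ι → ℝ) (N : ℕ) (hN : 1 ≤ N)
    (hx : ∀ a ∈ S, ∃ n : ℤ, (N : ℝ) * x a = n) :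
    (S.card : ℝ) ^ 2 / (6 * (N : ℝ) ^ 2) ≤ ∑ a ∈ S, ∑ b ∈ S, B2 (x a - x b) := by
  have hg := LBC_sum S (fun _ _ => (1 : ℝ)) x
  have h0 : HasSum (fun n : ℕ => 1 / ((n : ℝ) + 1) ^ 2) (Real.pi ^ 2 * (1 / 6)) := by
    have := st_FB 0
    rw [fb_B2_zero] at this
    simpa only [mul_zero, Real.cos_zero] using this
  have hf := h0.mul_left ((S.card : ℝ) ^ 2 / (N : ℝ) ^ 2)
  have hN0 : (0 : ℝ) < N := by exact_mod_cast hN
  have hpi : (0 : ℝ) < Real.pi ^ 2 := by positivity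
  have hle := hasSum_le_inj (fun j : ℕ => N * (j + 1) - 1) (by
      intro i j hij
      simp only at hij
      have h1 : 1 ≤ N * (i + 1) := Nat.mul_pos hN (Nat.succ_pos _)
      have h2 : 1 ≤ N * (j + 1) := Nat.mul_pos hN (Nat.succ_pos _)
      have h3 : N * (i + 1) = N * (j + 1) := by omega
      have h4 := Nat.eq_of_mul_eq_mul_left hN h3
      omega)
    (fun c _ => by
      simp only [one_mul]
      have := LBC_cos S (fun _ => (1 : ℝ)) x (2 * Real.pi * (c + 1))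
      simp only [one_mul] at this
      rw [this]
      positivity)
    (fun j => by
      have h1 : 1 ≤ N * (j + 1) := Nat.mul_pos hN (Nat.succ_pos _)
      have h2 : (((N * (j + 1) - 1 : ℕ) : ℝ) + 1) = N * ((j : ℝ) + 1) := by
        rw [Nat.cast_sub h1]
        push_cast
        ring
      have h3 : ∑ a ∈ S, ∑ b ∈ S, (1 : ℝ) *
          Real.cos (2 * Real.pi * (((N * (j + 1) - 1 : ℕ) : ℝ) + 1) * (x a - x b)) =
          (S.card : ℝ) ^ 2 := by
        have h4 : ∀ a ∈ S, ∀ b ∈ S, (1 : ℝ) *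
          Real.cos (2 * Real.pi * (((N * (j + 1) - 1 : ℕ) : ℝ) + 1) * (x a - x b)) = 1 := by
          intro a ha b hb
          obtain ⟨p, hp⟩ := hx a ha
          obtain ⟨q, hq⟩ := hx b hb
          have h5 : 2 * Real.pi * (((N * (j + 1) - 1 : ℕ) : ℝ) + 1) * (x a - x b) =
              (((p - q) * (j + 1) : ℤ) : ℝ) * (2 * Real.pi) := by
            rw [h2]
            push_cast
            rw [← hp, ← hq]
            ring
          rw [h5, Real.cos_int_mul_two_pi, one_mul]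
        rw [Finset.sum_congr rfl (fun a ha => Finset.sum_congr rfl (fun b hb => h4 a ha b hb))]
        simp
        ring
      rw [h3, h2, mul_pow]
      apply le_of_eq
      field_simp) hf hg
  simp only [one_mul] at hle
  rw [div_le_iff₀ (by positivity)]
  have h6 : (S.card : ℝ) ^ 2 / (N : ℝ) ^ 2 * (Real.pi ^ 2 * (1 / 6)) * (6 * (N : ℝ) ^ 2) =
      Real.pi ^ 2 * (S.card : ℝ) ^ 2 := by
    field_simp
  have h7 := mul_le_mul_of_nonneg_right hle (show (0 : ℝ) ≤ 6 * (N : ℝ) ^ 2 by positivity)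
  rw [h6, mul_assoc] at h7
  exact le_of_mul_le_mul_left h7 hpi

theorem LBC_prod {ι : Type} (S : Finset ι) (x y : ι → ℝ) :
    0 ≤ ∑ a ∈ S, ∑ b ∈ S, B2 (x a - x b) * B2 (y a - y b) := by
  have h := (LBC_sum S (fun a b => B2 (y a - y b)) x).nonneg (fun n => by
    apply div_nonneg _ (by positivity)
    have e : ∑ a ∈ S, ∑ b ∈ S, B2 (y a - y b) *
        Real.cos (2 * Real.pi * (n + 1) * (x a - x b)) =
        ∑ a ∈ S, ∑ b ∈ S, Real.cos (2 * Real.pi * (n + 1) * x a) *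
          Real.cos (2 * Real.pi * (n + 1) * x b) * B2 (y a - y b) +
        ∑ a ∈ S, ∑ b ∈ S, Real.sin (2 * Real.pi * (n + 1) * x a) *
          Real.sin (2 * Real.pi * (n + 1) * x b) * B2 (y a - y b) := by
      rw [← Finset.sum_add_distrib]
      refine Finset.sum_congr rfl fun a _ => ?_
      rw [← Finset.sum_add_distrib]
      refine Finset.sum_congr rfl fun b _ => ?_
      rw [mul_sub (2 * Real.pi * ((n : ℝ) + 1)) (x a), Real.cos_sub]
      ring
    rw [e]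
    exact add_nonneg (LBC_pos S _ y) (LBC_pos S _ y))
  have h2 := nonneg_of_mul_nonneg_right h (by positivity)
  refine h2.trans (le_of_eq ?_)
  refine Finset.sum_congr rfl fun a _ => Finset.sum_congr rfl fun b _ => ?_
  ring

/-- periodic fourth Bernoulli function -/
noncomputable def LBC_B4 (t : ℝ) : ℝ :=
  (Int.fract t) ^ 4 - 2 * (Int.fract t) ^ 3 + (Int.fract t) ^ 2 - 1 / 30

theorem LBC_sq (t : ℝ) : B2 t ^ 2 = 1 / 180 + B2 t / 3 + LBC_B4 t := by
  unfold B2 LBC_B4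
  ring

theorem LBC_F4 (t : ℝ) :
    HasSum (fun n : ℕ => Real.cos (2 * Real.pi * (n + 1) * t) / ((n : ℝ) + 1) ^ 4)
      (-(Real.pi ^ 4 / 3) * LBC_B4 t) := by
  have hx : Int.fract t ∈ Set.Icc (0 : ℝ) 1 := ⟨Int.fract_nonneg t, (Int.fract_lt_one t).le⟩
  have h := hasSum_one_div_nat_pow_mul_cos (k := 2) two_ne_zero hx
  have h2 := (hasSum_nat_add_iff' 1).2 h
  have e1 : (fun n : ℕ => Real.cos (2 * Real.pi * (n + 1) * t) / ((n : ℝ) + 1) ^ 4) =
      fun n : ℕ => 1 / ((n + 1 : ℕ) : ℝ) ^ (2 * 2) *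
        Real.cos (2 * Real.pi * ((n + 1 : ℕ) : ℝ) * Int.fract t) := by
    funext n
    rw [fb_cos_fract]
    push_cast
    ring
  rw [e1]
  have e2 : -(Real.pi ^ 4 / 3) * LBC_B4 t = (-1 : ℝ) ^ (2 + 1) * (2 * Real.pi) ^ (2 * 2) / 2 /
        (Nat.factorial (2 * 2) : ℝ) *
        (Polynomial.map (algebraMap ℚ ℝ) (Polynomial.bernoulli (2 * 2))).eval (Int.fract t) -
        ∑ i ∈ Finset.range 1, 1 / (i : ℝ) ^ (2 * 2) * Real.cos (2 * Real.pi * i * Int.fract t) := by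
    have e3 : (Polynomial.map (algebraMap ℚ ℝ) (Polynomial.bernoulli (2 * 2))).eval (Int.fract t) =
        LBC_B4 t := by
      have b2 : bernoulli 2 = 1 / 6 := by
        rw [bernoulli_eq_bernoulli'_of_ne_one (by norm_num), bernoulli'_two]
      have b3 : bernoulli 3 = 0 := by
        rw [bernoulli_eq_bernoulli'_of_ne_one (by norm_num), bernoulli'_three]
      have b4 : bernoulli 4 = -1 / 30 := by
        rw [bernoulli_eq_bernoulli'_of_ne_one (by norm_num), bernoulli'_four]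
      rw [show 2 * 2 = 4 from rfl, Polynomial.bernoulli]
      simp only [Finset.sum_range_succ, Finset.sum_range_zero]
      simp [LBC_B4, b2, b3, b4, bernoulli_one, Polynomial.eval_monomial, Nat.choose]
      norm_num
      ring
    rw [e3]
    have e4 : (Nat.factorial (2 * 2) : ℝ) = 24 := by norm_num [Nat.factorial]
    have e5 : (1 : ℝ) / ((0 : ℕ) : ℝ) ^ (2 * 2) = 0 := by norm_num
    rw [e4, Finset.sum_range_one, e5, zero_mul, sub_zero]
    ring
  rw [e2]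
  exact h2

theorem LBC_four {ι : Type} (S : Finset ι) (x : ι → ℝ) :
    0 ≤ ∑ a ∈ S, ∑ b ∈ S, (B2 (x a - x b) / 3 + LBC_B4 (x a - x b)) := by
  have h : HasSum (fun n : ℕ => ∑ a ∈ S, ∑ b ∈ S,
      ((1 / (3 * Real.pi ^ 2)) * (Real.cos (2 * Real.pi * (n + 1) * (x a - x b)) /
        ((n : ℝ) + 1) ^ 2) + (-(3 / Real.pi ^ 4)) *
        (Real.cos (2 * Real.pi * (n + 1) * (x a - x b)) / ((n : ℝ) + 1) ^ 4)))
      (∑ a ∈ S, ∑ b ∈ S, ((1 / (3 * Real.pi ^ 2)) * (Real.pi ^ 2 * B2 (x a - x b)) +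
        (-(3 / Real.pi ^ 4)) * (-(Real.pi ^ 4 / 3) * LBC_B4 (x a - x b)))) :=
    hasSum_sum fun a _ => hasSum_sum fun b _ =>
      ((st_FB (x a - x b)).mul_left _).add ((LBC_F4 (x a - x b)).mul_left _)
  have hpi : (0 : ℝ) < Real.pi := Real.pi_pos
  have e2 : ∑ a ∈ S, ∑ b ∈ S, ((1 / (3 * Real.pi ^ 2)) * (Real.pi ^ 2 * B2 (x a - x b)) +
        (-(3 / Real.pi ^ 4)) * (-(Real.pi ^ 4 / 3) * LBC_B4 (x a - x b))) =
      ∑ a ∈ S, ∑ b ∈ S, (B2 (x a - x b) / 3 + LBC_B4 (x a - x b)) := by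
    refine Finset.sum_congr rfl fun a _ => Finset.sum_congr rfl fun b _ => ?_
    field_simp
  rw [← e2]
  refine h.nonneg fun n => ?_
  have e3 : ∑ a ∈ S, ∑ b ∈ S,
      ((1 / (3 * Real.pi ^ 2)) * (Real.cos (2 * Real.pi * (n + 1) * (x a - x b)) /
        ((n : ℝ) + 1) ^ 2) + (-(3 / Real.pi ^ 4)) *
        (Real.cos (2 * Real.pi * (n + 1) * (x a - x b)) / ((n : ℝ) + 1) ^ 4)) =
      (1 / (3 * Real.pi ^ 2 * ((n : ℝ) + 1) ^ 2) - 3 / (Real.pi ^ 4 * ((n : ℝ) + 1) ^ 4)) *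
      ∑ a ∈ S, ∑ b ∈ S, (1 : ℝ) * 1 * Real.cos (2 * Real.pi * (n + 1) * (x a - x b)) := by
    rw [Finset.mul_sum]
    refine Finset.sum_congr rfl fun a _ => ?_
    rw [Finset.mul_sum]
    refine Finset.sum_congr rfl fun b _ => ?_
    field_simp
    ring
  rw [e3, LBC_cos S (fun _ => (1 : ℝ)) x]
  apply mul_nonneg _ (by positivity)
  rw [sub_nonneg, div_le_div_iff₀ (by positivity) (by positivity)]
  have h3 : (3 : ℝ) < Real.pi := Real.pi_gt_three
  have h9 : (9 : ℝ) ≤ Real.pi ^ 2 := by nlinarith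
  have hn : (1 : ℝ) ≤ ((n : ℝ) + 1) ^ 2 := by
    have : (0 : ℝ) ≤ n := Nat.cast_nonneg n
    nlinarith
  have h10 : (9 : ℝ) ≤ Real.pi ^ 2 * ((n : ℝ) + 1) ^ 2 := by nlinarith
  have h11 : 3 * (3 * Real.pi ^ 2 * ((n : ℝ) + 1) ^ 2) =
      9 * (Real.pi ^ 2 * ((n : ℝ) + 1) ^ 2) := by ring
  have h12 : 1 * (Real.pi ^ 4 * ((n : ℝ) + 1) ^ 4) =
      (Real.pi ^ 2 * ((n : ℝ) + 1) ^ 2) * (Real.pi ^ 2 * ((n : ℝ) + 1) ^ 2) := by ring
  rw [h11, h12]
  exact mul_le_mul_of_nonneg_right h10 (by positivity)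

theorem st_LBC : ST_LBC := by
  intro ι S x y
  refine ⟨?_, fun N hN hx => LBC_den S x N hN hx, LBC_prod S x y, ?_⟩
  · have := LBC_pos S (fun _ => (1 : ℝ)) x
    simpa using this
  · have h := LBC_four S x
    have hp := LBC_pos S (fun _ => (1 : ℝ)) x
    have e : ∑ a ∈ S, ∑ b ∈ S, B2 (x a - x b) ^ 2 = (S.card : ℝ) ^ 2 / 180 +
        ∑ a ∈ S, ∑ b ∈ S, (B2 (x a - x b) / 3 + LBC_B4 (x a - x b)) := by
      have e1 : ∀ a ∈ S, ∀ b ∈ S, B2 (x a - x b) ^ 2 =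
          1 / 180 + (B2 (x a - x b) / 3 + LBC_B4 (x a - x b)) := by
        intro a _ b _
        rw [LBC_sq]
        ring
      rw [Finset.sum_congr rfl (fun a ha => Finset.sum_congr rfl (fun b hb => e1 a ha b hb))]
      simp only [Finset.sum_add_distrib, Finset.sum_const, nsmul_eq_mul]
      ring
    rw [e]
    linarith

end Pool.Agent.Helper54.LM
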