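import Pool.Agent.Helper54.LM.Defs

set_option autoImplicit false

open Filter Topology

namespace Pool.Agent.Helper54.LM

open Pool.Agent.Helper42.LS

theorem LSG_pr {m : ℕ} (a b : Fin m → ℤ) (t : Fin m → ℝ) : pr (a - b) t = pr a t - pr b t := by
  unfold pr
  rw [← Finset.sum_sub_distrib]
  refine Finset.sum_congr rfl fun i _ => ?_
  rw [Pi.sub_apply]
  push_cast
  ring

theorem LSG_int {m : ℕ} (a : Fin m → ℤ) (t : Fin m → ℝ) (N : ℝ)
    (h : ∀ i, ∃ n : ℤ, N * t i = n) : ∃ n : ℤ, N * pr a t = n := by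
  choose n hn using h
  refine ⟨∑ i, a i * n i, ?_⟩
  unfold pr
  rw [Finset.mul_sum]
  push_cast
  refine Finset.sum_congr rfl fun i _ => ?_
  rw [← hn i]
  ring

theorem st_LSG (hBC : ST_LBC) : ST_LSG := by
  intro m S V Vf w t N hsub hw hN hint hD hcard
  set D := ∑ v ∈ Vf, w v / (N v : ℝ) ^ 2 with hDdef
  set W := ∑ v ∈ V, w v with hWdef
  by_contra hcon
  push Not at hcon
  -- the sum over all pairs
  have h1 : (S.card : ℝ) ^ 2 * (D / 6) ≤
      ∑ a ∈ S, ∑ b ∈ S, ∑ v ∈ V, w v * B2 (pr (a - b) (t v)) := by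
    have e1 : ∑ a ∈ S, ∑ b ∈ S, ∑ v ∈ V, w v * B2 (pr (a - b) (t v)) =
        ∑ v ∈ V, w v * ∑ a ∈ S, ∑ b ∈ S, B2 (pr a (t v) - pr b (t v)) := by
      have e2 : ∀ a ∈ S, ∑ b ∈ S, ∑ v ∈ V, w v * B2 (pr (a - b) (t v)) =
          ∑ v ∈ V, ∑ b ∈ S, w v * B2 (pr (a - b) (t v)) := fun a _ => Finset.sum_comm
      rw [Finset.sum_congr rfl e2, Finset.sum_comm]
      refine Finset.sum_congr rfl fun v _ => ?_
      rw [Finset.mul_sum]
      refine Finset.sum_congr rfl fun a _ => ?_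
      rw [Finset.mul_sum]
      refine Finset.sum_congr rfl fun b _ => ?_
      rw [LSG_pr]
    rw [e1]
    have e3 : (S.card : ℝ) ^ 2 * (D / 6) = ∑ v ∈ Vf, w v * ((S.card : ℝ) ^ 2 /
        (6 * (N v : ℝ) ^ 2)) := by
      rw [hDdef, Finset.sum_div, Finset.mul_sum]
      refine Finset.sum_congr rfl fun v hv => ?_
      have : (0 : ℝ) < N v := by exact_mod_cast hN v hv
      field_simp
    rw [e3]
    refine (Finset.sum_le_sum (fun v hv => mul_le_mul_of_nonneg_left
      ((hBC _ S (fun a => pr a (t v)) (fun a => pr a (t v))).2.1 (N v) (hN v hv)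
        (fun a _ => LSG_int a (t v) _ (hint v hv))) (hw v (hsub hv)))).trans ?_
    refine Finset.sum_le_sum_of_subset_of_nonneg hsub fun v hv _ => mul_nonneg (hw v hv) ?_
    exact (hBC _ S (fun a => pr a (t v)) (fun a => pr a (t v))).1
  have hDW : D ≤ W := by
    rw [hDdef, hWdef]
    refine (Finset.sum_le_sum (g := w) (fun v hv => ?_)).trans
      (Finset.sum_le_sum_of_subset_of_nonneg hsub fun v hv _ => hw v hv)
    have h2 : (1 : ℝ) ≤ N v := by exact_mod_cast hN v hv
    apply div_le_self (hw v (hsub hv))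
    nlinarith
  have hS : 0 < (S.card : ℝ) := by
    by_contra h
    have h2 : (S.card : ℝ) = 0 := le_antisymm (not_lt.mp h) (Nat.cast_nonneg _)
    rw [h2] at hcard
    linarith
  have h3 : ∑ a ∈ S, ∑ b ∈ S, ∑ v ∈ V, w v * B2 (pr (a - b) (t v)) ≤
      ∑ a ∈ S, ∑ b ∈ S, (D / 12 + if a = b then (W / 6 - D / 12) else 0) := by
    refine Finset.sum_le_sum fun a ha => Finset.sum_le_sum fun b hb => ?_
    by_cases hab : a = b
    · subst hab
      rw [if_pos rfl]
      have e : ∑ v ∈ V, w v * B2 (pr (a - a) (t v)) = W / 6 := by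
        rw [hWdef, Finset.sum_div]
        refine Finset.sum_congr rfl fun v _ => ?_
        rw [LSG_pr, sub_self]
        simp [B2]
        ring
      rw [e]
      linarith
    · rw [if_neg hab, add_zero]
      exact (hcon a ha b hb hab).le
  have h4 : ∑ a ∈ S, ∑ b ∈ S, (D / 12 + if a = b then (W / 6 - D / 12) else 0) =
      (S.card : ℝ) ^ 2 * (D / 12) + S.card * (W / 6 - D / 12) := by
    have e : ∀ a ∈ S, ∑ b ∈ S, (D / 12 + if a = b then (W / 6 - D / 12) else 0) =
        S.card * (D / 12) + (W / 6 - D / 12) := by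
      intro a ha
      rw [Finset.sum_add_distrib, Finset.sum_ite_eq, if_pos ha, Finset.sum_const, nsmul_eq_mul]
    rw [Finset.sum_congr rfl e, Finset.sum_const, nsmul_eq_mul]
    ring
  rw [h4] at h3
  have h5 := mul_le_mul_of_nonneg_left hcard hS.le
  have h6 : 0 < S.card * D := mul_pos hS hD
  nlinarith

end Pool.Agent.Helper54.LM
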