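import Pool.Agent.Helper54.LM.Defs
import Pool.Agent.Helper81.LS.FB

set_option autoImplicit false

open Filter Topology

namespace Pool.Agent.Helper54.LM

open Pool.Agent.Helper42.LS

theorem LBK_zero : HasSum (fun n : ℕ => 1 / ((n : ℝ) + 1) ^ 2) (Real.pi ^ 2 * (1 / 6)) := by
  have := st_FB 0
  rw [fb_B2_zero] at this
  simpa only [mul_zero, Real.cos_zero] using this

theorem st_LBK : ST_LBK := by
  intro ι S x b
  set c : ℕ → ℝ := fun n => ∑ k ∈ S, b k * Real.cos (2 * Real.pi * (n + 1) * x k) with hc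
  set X := ∑ k ∈ S, b k * B2 (x k) with hX
  set Y := ∑ k ∈ S, ∑ l ∈ S, b k * b l * (B2 (x k - x l) + B2 (x k + x l)) with hY
  have h1 : HasSum (fun n : ℕ => c n / ((n : ℝ) + 1) ^ 2) (Real.pi ^ 2 * X) := by
    have h2 : HasSum (fun n : ℕ => ∑ k ∈ S, b k * (Real.cos (2 * Real.pi * (n + 1) * x k) /
        ((n : ℝ) + 1) ^ 2)) (∑ k ∈ S, b k * (Real.pi ^ 2 * B2 (x k))) :=
      hasSum_sum fun k _ => (st_FB (x k)).mul_left (b k)
    have e1 : (fun n : ℕ => c n / ((n : ℝ) + 1) ^ 2) = fun n : ℕ => ∑ k ∈ S, b k *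
        (Real.cos (2 * Real.pi * (n + 1) * x k) / ((n : ℝ) + 1) ^ 2) := by
      funext n
      simp only [hc]
      rw [Finset.sum_div]
      refine Finset.sum_congr rfl fun k _ => ?_
      ring
    have e2 : Real.pi ^ 2 * X = ∑ k ∈ S, b k * (Real.pi ^ 2 * B2 (x k)) := by
      rw [hX, Finset.mul_sum]
      refine Finset.sum_congr rfl fun k _ => ?_
      ring
    rw [e1, e2]; exact h2
  have h3 : HasSum (fun n : ℕ => 2 * c n ^ 2 / ((n : ℝ) + 1) ^ 2) (Real.pi ^ 2 * Y) := by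
    have h2 : HasSum (fun n : ℕ => ∑ k ∈ S, ∑ l ∈ S, (b k * b l) *
        (Real.cos (2 * Real.pi * (n + 1) * (x k - x l)) / ((n : ℝ) + 1) ^ 2 +
          Real.cos (2 * Real.pi * (n + 1) * (x k + x l)) / ((n : ℝ) + 1) ^ 2))
        (∑ k ∈ S, ∑ l ∈ S, (b k * b l) * (Real.pi ^ 2 * B2 (x k - x l) +
          Real.pi ^ 2 * B2 (x k + x l))) :=
      hasSum_sum fun k _ => hasSum_sum fun l _ =>
        ((st_FB (x k - x l)).add (st_FB (x k + x l))).mul_left (b k * b l)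
    have e1 : (fun n : ℕ => 2 * c n ^ 2 / ((n : ℝ) + 1) ^ 2) = fun n : ℕ => ∑ k ∈ S, ∑ l ∈ S,
        (b k * b l) *
        (Real.cos (2 * Real.pi * (n + 1) * (x k - x l)) / ((n : ℝ) + 1) ^ 2 +
          Real.cos (2 * Real.pi * (n + 1) * (x k + x l)) / ((n : ℝ) + 1) ^ 2) := by
      funext n
      have e3 : c n ^ 2 = ∑ k ∈ S, ∑ l ∈ S, (b k * Real.cos (2 * Real.pi * (n + 1) * x k)) *
          (b l * Real.cos (2 * Real.pi * (n + 1) * x l)) := by
        rw [sq, hc, Finset.sum_mul_sum]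
      rw [mul_div_assoc, e3, Finset.sum_div, Finset.mul_sum]
      refine Finset.sum_congr rfl fun k _ => ?_
      rw [Finset.sum_div, Finset.mul_sum]
      refine Finset.sum_congr rfl fun l _ => ?_
      rw [mul_sub (2 * Real.pi * ((n : ℝ) + 1)) (x k), mul_add (2 * Real.pi * ((n : ℝ) + 1)) (x k),
        Real.cos_sub, Real.cos_add]
      ring
    have e2 : Real.pi ^ 2 * Y = ∑ k ∈ S, ∑ l ∈ S, (b k * b l) *
        (Real.pi ^ 2 * B2 (x k - x l) + Real.pi ^ 2 * B2 (x k + x l)) := by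
      rw [hY, Finset.mul_sum]
      refine Finset.sum_congr rfl fun k _ => ?_
      rw [Finset.mul_sum]
      refine Finset.sum_congr rfl fun l _ => ?_
      ring
    rw [e1, e2]; exact h2
  have h0 := LBK_zero
  -- Cauchy-Schwarz
  set y := 6 * X with hx
  have h4 : HasSum (fun n : ℕ => 2 * c n ^ 2 / ((n : ℝ) + 1) ^ 2 - (4 * y) * (c n / ((n : ℝ) + 1) ^ 2) +
      (2 * y ^ 2) * (1 / ((n : ℝ) + 1) ^ 2))
      (Real.pi ^ 2 * Y - (4 * y) * (Real.pi ^ 2 * X) + (2 * y ^ 2) * (Real.pi ^ 2 * (1 / 6))) :=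
    (h3.sub (h1.mul_left (4 * y))).add (h0.mul_left (2 * y ^ 2))
  have h5 : 0 ≤ Real.pi ^ 2 * Y - (4 * y) * (Real.pi ^ 2 * X) +
      (2 * y ^ 2) * (Real.pi ^ 2 * (1 / 6)) := by
    refine h4.nonneg fun n => ?_
    have : 2 * c n ^ 2 / ((n : ℝ) + 1) ^ 2 - (4 * y) * (c n / ((n : ℝ) + 1) ^ 2) +
      (2 * y ^ 2) * (1 / ((n : ℝ) + 1) ^ 2) = 2 * (c n - y) ^ 2 / ((n : ℝ) + 1) ^ 2 := by
      field_simp
      ring
    rw [this]; positivity
  have h6 : 0 ≤ Real.pi ^ 2 * (Y - 12 * X ^ 2) := by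
    refine h5.trans (le_of_eq ?_)
    rw [hx]; ring
  have hpi : (0 : ℝ) < Real.pi ^ 2 := by positivity
  have h7 := nonneg_of_mul_nonneg_right h6 hpi
  linarith

end Pool.Agent.Helper54.LM
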